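import Pool.Agent.Lib.MP_1a91b9_nuX.LG.Ser
import Pool.Agent.Lib.MP_1a91b9_nuX.LF.Main

/-!
# The conclusion for a curve whose Hecke character is given
-/

set_option autoImplicit false

namespace Pool.Agent.Lib.MP_1a91b9_nuX.LG

open NumberField IsDedekindDomain WeierstrassCurve Pool.Agent.Lib.MP_1a91b9_nt
  Pool.Agent.Lib.MP_1a91b9_nuT
open Pool.Agent.Lib.MP_1a91b9_nuT.S4 (Lf)
open Pool.Agent.Lib.MP_1a91b9_nuX.PG
open Pool.Agent.Lib.MP_1a91b9_nuX.PA (pC)

universe u

variable [CD]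

/-- The L-function of the character is entire and does not vanish at `1`. -/
def GoodP {F : Type u} [Field F] [NumberField F] (ps : Ideal (𝓞 F) → 𝓞 K) : Prop :=
  ∃ L : ℂ → ℂ, Differentiable ℂ L ∧ (∀ s : ℂ, 2 < s.re → L s = Lf (bC ps) s) ∧ L 1 ≠ 0

/-- The conclusion for the L-series. -/
def LConcl {N : Type u} [Field N] [NumberField N] (W : WeierstrassCurve N) : Prop :=
  ∃ g : ℂ → ℂ, Differentiable ℂ g ∧ (∀ s : ℂ, 3 / 2 < s.re → g s = W.LSeries s) ∧ g 1 ≠ 0

/-- over a field containing `K` -/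
theorem lconcl_K {F : Type u} [Field F] [NumberField F] [Algebra K F] {W : WeierstrassCurve F}
    {m : Ideal (𝓞 F)} {ps : Ideal (𝓞 F) → 𝓞 K} (h : FDat F W m ps) (hg : GoodP ps) :
    LConcl W := by
  obtain ⟨L, hL, hL2, hne⟩ := hg
  have hL1 := half_bC h hL hL2
  refine ⟨fun s => (starRingEnd ℂ) (L ((starRingEnd ℂ) s)) * L s,
    (S4.differentiable_conj_conj hL).mul hL, fun s hs => ?_, ?_⟩
  · change (starRingEnd ℂ) (L ((starRingEnd ℂ) s)) * L s = _
    rw [LSeries_K' h s hs, hL1 s hs, hL1 _ (by rw [Complex.conj_re]; exact hs), ← Lf_pC]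
  · change (starRingEnd ℂ) (L ((starRingEnd ℂ) 1)) * L 1 ≠ 0
    rw [map_one]
    exact mul_ne_zero ((map_ne_zero _).mpr hne) hne

/-- over a field `N` which does not contain `K`, `F = N K` -/
theorem lconcl_N {N F : Type u} [Field N] [NumberField N] [Field F] [NumberField F]
    [Algebra N F] [Algebra K F] {W : WeierstrassCurve N} {W' : WeierstrassCurve F}
    {m : Ideal (𝓞 F)} {ps : Ideal (𝓞 F) → 𝓞 K} (h : FDat F W' m ps) (hE : EulD W ps)
    (hg : GoodP ps) : LConcl W := by
  obtain ⟨L, hL, hL2, hne⟩ := hg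
  refine ⟨L, hL, fun s hs => ?_, hne⟩
  rw [half_bC h hL hL2 s hs, LSeries_N' h hE s hs]

/-- finiteness descends -/
theorem finite_down {N M : Type*} [Field N] [Field M] [Algebra N M]
    (W : WeierstrassCurve N) (W' : WeierstrassCurve M) (C : VariableChange M)
    (hC : C • W.map (algebraMap N M) = W') (h : Finite W'.toAffine.Point) :
    Finite W.toAffine.Point := by
  rw [← hC] at h
  have h3 : Finite (W.map (algebraMap N M)).toAffine.Point :=
    Finite.of_surjective _ (vcFun_bijective (W.map (algebraMap N M)) C).2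
  exact Finite.of_injective _ (TW.locMap_injective (algebraMap N M) W)

end Pool.Agent.Lib.MP_1a91b9_nuX.LG
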