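import Pool.Agent.Lib.MP_1a91b9_nuX.PG.Defs
import Pool.Agent.Lib.MP_1a91b9_nuX.LF.EulN

/-!
# The local data of isomorphic curves
-/

set_option autoImplicit false

namespace Pool.Agent.Lib.MP_1a91b9_nuX.LG

open NumberField IsDedekindDomain WeierstrassCurve Pool.Agent.Lib.MP_1a91b9_nuT
  Pool.Agent.Lib.MP_1a91b9_nt
open Pool.Agent.Lib.MP_1a91b9_nuX.PG
open Pool.Agent.Lib.MP_1a91b9_nuX.LF (crv j_int good_smul E_eq_crv)

universe u

variable [CD]

/-- the invariant is integral at `v` -/
def JI {N : Type*} [Field N] [NumberField N] (W : WeierstrassCurve N)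
    (v : HeightOneSpectrum (𝓞 N)) : Prop := v.valuation N (W.c₄ ^ 3) ≤ v.valuation N W.Δ

theorem ji_iso {N : Type*} [Field N] [NumberField N] {W W' : WeierstrassCurve N}
    {C : VariableChange N} (hC : C • W = W') (v : HeightOneSpectrum (𝓞 N)) (h : JI W' v) :
    JI W v := by
  have hW : W = C⁻¹ • W' := by rw [← hC, inv_smul_smul]
  rw [hW]
  exact GM.j_change _ h

theorem gd_iso {N : Type*} [Field N] [NumberField N] {W W' : WeierstrassCurve N}
    {C : VariableChange N} (hC : C • W = W') (v : HeightOneSpectrum (𝓞 N)) :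
    Gd W v ↔ Gd W' v :=
  ⟨fun h => good_smul v hC h, fun h => good_smul v (C := C⁻¹) (by rw [← hC, inv_smul_smul]) h⟩

/-- isomorphic curves have the same local polynomials -/
theorem locPoly_iso {N : Type*} [Field N] [NumberField N] {W W' : WeierstrassCurve N}
    {C : VariableChange N} (hC : C • W = W') (v : HeightOneSpectrum (𝓞 N)) (h : JI W' v) :
    locPoly W v = locPoly W' v := by
  by_cases hg : Gd W' v
  · obtain ⟨D, hD⟩ := hg
    obtain ⟨V, hV⟩ := GL.exists_abv (Ω := AlgebraicClosure N) v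
    have hD' : GM.GoodW (v.valuation N) ((D * C) • W) := by
      rw [mul_smul, hC]
      exact hD
    rw [(GL.locPoly_good hV W hD').2, (GL.locPoly_good hV W' hD).2, mul_smul, hC]
  · rw [GL.locPoly_bad v W' h hg,
      GL.locPoly_bad v W (ji_iso hC v h) fun h1 => hg ((gd_iso hC v).1 h1)]

/-- the invariant of `E` -/
theorem ji_E (N : Type*) [Field N] [NumberField N] (v : HeightOneSpectrum (𝓞 N)) :
    JI (E N) v := j_int v CD.jint (C := 1) (by rw [one_smul]; rfl)

variable {F : Type*} [Field F] [NumberField F] [Algebra K F]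

/-- the Hecke character of an isomorphic curve -/
theorem fdat_iso {W W' : WeierstrassCurve F} {m : Ideal (𝓞 F)} {ps : Ideal (𝓞 F) → 𝓞 K}
    (h : FDat F W' m ps) {C : VariableChange F} (hC : C • W = W')
    (hj : ∀ v : HeightOneSpectrum (𝓞 F), JI W' v) : FDat F W m ps where
  ne := h.ne
  bad w := by rw [h.bad w, gd_iso hC w]
  one := h.one
  mul := h.mul
  span := h.span
  zero := h.zero
  ray := h.ray
  loc w := by rw [locPoly_iso hC w (hj w), h.loc w]

end Pool.Agent.Lib.MP_1a91b9_nuX.LG
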