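import Pool.Agent.Lib.MP_1a91b9_nuX.LG.Iso
import Pool.Agent.Lib.MP_1a91b9_nuX.PA.Ps
import Pool.Agent.Lib.MP_1a91b9_nuX.LF.Ser

/-!
# The L-series of the curve in terms of the primitive Hecke character
-/

set_option autoImplicit false

namespace Pool.Agent.Lib.MP_1a91b9_nuX.LG

open NumberField IsDedekindDomain Polynomial WeierstrassCurve Filter Topology LSeries
  Pool.Agent.Lib.MP_1a91b9_nt Pool.Agent.Lib.MP_1a91b9_nuT Pool.Agent.Lib.MP_1a91b9_nuT.S7
open Pool.Agent.Lib.MP_1a91b9_nuT.S4 (Lf Over)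
open Pool.Agent.Lib.MP_1a91b9_nuX.PG
open Pool.Agent.Lib.MP_1a91b9_nuX.PA (pC bC_eq pC_one pC_mul bC_one bC_mul norm_pC_le norm_bC_le)

universe u

variable [CD]

/-- complex conjugation of the L-series of a character -/
theorem Lf_conj_of {F : Type u} [Field F] [NumberField F] (f g : Ideal (𝓞 F) → ℂ)
    (hfg : ∀ I, g I = (starRingEnd ℂ) (f I)) (s : ℂ) :
    Lf f s = (starRingEnd ℂ) (Lf g ((starRingEnd ℂ) s)) := by
  rw [Lf, Lf, Complex.conj_tsum]
  refine tsum_congr fun I => ?_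
  rw [map_mul, hfg, Complex.conj_conj]
  congr 1
  rw [← map_neg, Complex.cpow_conj _ _ (by
    rw [Complex.natCast_arg]
    exact Real.pi_pos.ne), Complex.conj_natCast, Complex.conj_conj]

theorem natCast_pow_cpow (n k : ℕ) (s : ℂ) : ((n : ℂ) ^ k) ^ s = ((n : ℂ) ^ s) ^ k := by
  induction k with
  | zero => simp
  | succ k ih =>
    rw [pow_succ, ← Nat.cast_pow, Complex.natCast_mul_natCast_cpow, Nat.cast_pow, ih, pow_succ]

/-- from `2 < Re s` to `3/2 < Re s` -/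
theorem half_of {F : Type u} [Field F] [NumberField F] (f : Ideal (𝓞 F) → ℂ) (h1 : f 1 = 1)
    (hmul : ∀ I J, f (I * J) = f I * f J)
    (hf : ∀ I, ‖f I‖ ≤ (Ideal.absNorm I : ℝ) ^ (1 / 2 : ℝ)) {g : ℂ → ℂ}
    (hg : Differentiable ℂ g) (h2 : ∀ s : ℂ, 2 < s.re → g s = Lf f s) :
    ∀ s : ℂ, 3 / 2 < s.re → g s = Lf f s := by
  have hq := hasSum_coefI_of_le f h1 hmul hf
  set b : ℕ → ℂ := coefI f with hb
  have hab : abscissaOfAbsConv b ≤ ((3 / 2 : ℝ) : EReal) := by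
    refine LSeries.abscissaOfAbsConv_le_of_forall_lt_LSeriesSummable fun y hy => ?_
    exact (hq y (by simpa using hy)).LSeriesSummable
  have hL : AnalyticOnNhd ℂ (LSeries b) {s : ℂ | 3 / 2 < s.re} := by
    refine (LSeries_analyticOnNhd b).mono fun s hs => ?_
    exact hab.trans_lt (by exact_mod_cast hs)
  have hG : AnalyticOnNhd ℂ g {s : ℂ | 3 / 2 < s.re} := fun s _ => hg.analyticAt s
  have hc : IsPreconnected {s : ℂ | 3 / 2 < s.re} := (convex_halfSpace_re_gt _).isPreconnected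
  have h3 : (3 : ℂ) ∈ {s : ℂ | 3 / 2 < s.re} := by norm_num
  have hev : g =ᶠ[𝓝 (3 : ℂ)] LSeries b := by
    have ho : IsOpen {s : ℂ | 2 < s.re} := isOpen_lt continuous_const Complex.continuous_re
    filter_upwards [ho.mem_nhds (show (3 : ℂ) ∈ {s : ℂ | 2 < s.re} by norm_num)] with s hs
    have hs' : 2 < s.re := hs
    rw [h2 s hs', (hq s (by linarith)).LSeries_eq]
  intro s hs
  rw [hG.eqOn_of_preconnected_of_eventuallyEq hL hc h3 hev hs, (hq s hs).LSeries_eq]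

section
variable {F : Type u} [Field F] [NumberField F] [Algebra K F] {W : WeierstrassCurve F}
  {m : Ideal (𝓞 F)} {ps : Ideal (𝓞 F) → 𝓞 K}

/-- the Euler factor over a field containing `K` -/
theorem loc_C (h : FDat F W m ps) (w : HeightOneSpectrum (𝓞 F)) (x : ℂ) :
    aeval x (locPoly W w) = (1 - pC ps w.asIdeal * x) * (1 - bC ps w.asIdeal * x) := by
  have h1 := h.loc w
  obtain ⟨τ, hτ⟩ : ∃ τ : 𝓞 K →+* ℂ, τ = embK.toRingHom.comp (algebraMap (𝓞 K) K) := ⟨_, rfl⟩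
  have h2 := congrArg (eval₂ τ x) h1
  rw [eval₂_map] at h2
  have h3 : τ.comp (Int.castRingHom (𝓞 K)) = algebraMap ℤ ℂ := RingHom.ext_int _ _
  rw [h3] at h2
  rw [aeval_def, h2]
  simp only [eval₂_mul, eval₂_sub, eval₂_one, eval₂_C, eval₂_X]
  have e1 : τ (ps w.asIdeal) = pC ps w.asIdeal := by
    rw [hτ]
    rfl
  have e2 : τ (cj (ps w.asIdeal)) = bC ps w.asIdeal := by
    rw [hτ]
    change embK ((cj (ps w.asIdeal) : 𝓞 K) : K) = _
    rw [emb_cj]
    rfl
  rw [e1, e2]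

theorem pC_conj (I : Ideal (𝓞 F)) : bC ps I = (starRingEnd ℂ) (pC ps I) := rfl

theorem bC_conj (I : Ideal (𝓞 F)) : pC ps I = (starRingEnd ℂ) (bC ps I) := by
  rw [bC_eq, Complex.conj_conj]

theorem Lf_pC (s : ℂ) : Lf (pC ps) s = (starRingEnd ℂ) (Lf (bC ps) ((starRingEnd ℂ) s)) :=
  Lf_conj_of (pC ps) (bC ps) (fun _ => rfl) s

theorem half_bC (h : FDat F W m ps) {g : ℂ → ℂ} (hg : Differentiable ℂ g)
    (h2 : ∀ s : ℂ, 2 < s.re → g s = Lf (bC ps) s) :
    ∀ s : ℂ, 3 / 2 < s.re → g s = Lf (bC ps) s :=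
  half_of (bC ps) (bC_one h) (bC_mul h) (norm_bC_le h) hg h2

/-- the range `2 < Re s` -/
private theorem Ser_K2 (h : FDat F W m ps) (s : ℂ) (hs : 2 < s.re) :
    W.LSeries s = Lf (pC ps) s * Lf (bC ps) s := by
  have hp := (S4.hasProd_Lf (pC ps) (pC_one h) (pC_mul h) (1 / 2) (by norm_num)
    (norm_pC_le h) s (by linarith)).2
  have hq := (S4.hasProd_Lf (bC ps) (bC_one h) (bC_mul h) (1 / 2) (by norm_num)
    (norm_bC_le h) s (by linarith)).2
  have hpq := hp.mul hq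
  have he := hasProd_fac W hs
  refine he.unique ?_
  have e : (fun w : HeightOneSpectrum (𝓞 F) => fac W w s) = fun w =>
      (1 - pC ps w.asIdeal * (Ideal.absNorm w.asIdeal : ℂ) ^ (-s))⁻¹ *
      (1 - bC ps w.asIdeal * (Ideal.absNorm w.asIdeal : ℂ) ^ (-s))⁻¹ := by
    funext w
    rw [fac, nrm_eq, loc_C h w, mul_inv]
  rw [e]
  exact hpq

/-- the L-series over a field containing `K` -/
theorem LSeries_K' (h : FDat F W m ps) (s : ℂ) (hs : 3 / 2 < s.re) :
    W.LSeries s = Lf (pC ps) s * Lf (bC ps) s := by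
  have hp := hasSum_coefI_of_le (pC ps) (pC_one h) (pC_mul h) (norm_pC_le h)
  have hq := hasSum_coefI_of_le (bC ps) (bC_one h) (bC_mul h) (norm_bC_le h)
  have h1 := half_plane W (LSeries.convolution (coefI (pC ps)) (coefI (bC ps)))
    (fun s hs => ((hp s hs).convolution (hq s hs)).LSeriesSummable)
    (fun s hs => by
      have hs' : 3 / 2 < s.re := by linarith
      rw [Ser_K2 h s hs, ((hp s hs').convolution (hq s hs')).LSeries_eq]) s hs
  rw [h1.2, ((hp s hs).convolution (hq s hs)).LSeries_eq]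

end

section
variable {N F : Type u} [Field N] [NumberField N] [Field F] [NumberField F] [Algebra N F]
  [Algebra K F] {W : WeierstrassCurve N} {W' : WeierstrassCurve F} {m : Ideal (𝓞 F)}
  {ps : Ideal (𝓞 F) → 𝓞 K}

/-- the product over a finite set of places is a product over the places above `v` -/
theorem prod_over (v : HeightOneSpectrum (𝓞 N)) {M : Type*} [CommMonoid M]
    (f : HeightOneSpectrum (𝓞 F) → M) :
    ∃ s : Finset (HeightOneSpectrum (𝓞 F)), (∀ w, w ∈ s ↔ w.under (𝓞 N) = v) ∧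
      ∏ w ∈ s, f w = ∏ w : Over F v, f w.1 := by
  classical
  refine ⟨Finset.univ.map ⟨fun w : Over F v => w.1, Subtype.val_injective⟩, fun w => ?_, ?_⟩
  · rw [Finset.mem_map]
    constructor
    · rintro ⟨x, -, rfl⟩
      exact HeightOneSpectrum.ext x.2
    · intro h
      exact ⟨⟨w, by rw [← h]; rfl⟩, Finset.mem_univ _, rfl⟩
  · rw [Finset.prod_map]
    rfl

/-- the Euler factor over a subfield -/
theorem loc_N (hE : EulD W ps) (v : HeightOneSpectrum (𝓞 N)) (x : ℂ) :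
    aeval x (locPoly W v) =
      ∏ w : Over F v, (1 - bC ps w.1.asIdeal * x ^ w.1.asIdeal.inertiaDeg (𝓞 N)) := by
  obtain ⟨τ, hτ⟩ : ∃ τ : 𝓞 K →+* ℂ, τ = (starRingEnd ℂ).comp
      (embK.toRingHom.comp (algebraMap (𝓞 K) K)) := ⟨_, rfl⟩
  obtain ⟨s, hs, -⟩ := prod_over (F := F) v (fun w => (1 : ℂ))
  have h1 := hE v s hs
  have h2 := congrArg (eval₂ τ x) h1
  rw [eval₂_map] at h2
  have h3 : τ.comp (Int.castRingHom (𝓞 K)) = algebraMap ℤ ℂ := RingHom.ext_int _ _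
  rw [h3] at h2
  rw [aeval_def, h2, eval₂_finsetProd]
  have e1 : ∀ w : HeightOneSpectrum (𝓞 F),
      eval₂ τ x (1 - Polynomial.C (ps w.asIdeal) * Polynomial.X ^ w.asIdeal.inertiaDeg (𝓞 N)) =
        1 - bC ps w.asIdeal * x ^ w.asIdeal.inertiaDeg (𝓞 N) := by
    intro w
    simp only [eval₂_mul, eval₂_sub, eval₂_one, eval₂_C, eval₂_X, eval₂_pow]
    rw [hτ]
    rfl
  rw [Finset.prod_congr rfl fun w _ => e1 w]
  obtain ⟨s', hs', hp⟩ := prod_over (F := F) v
    (fun w => 1 - bC ps w.asIdeal * x ^ w.asIdeal.inertiaDeg (𝓞 N))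
  have hss : s = s' := by
    ext w
    rw [hs, hs']
  rw [hss, hp]

/-- the Euler factor over a subfield -/
theorem euler_N' (hE : EulD W ps) (v : HeightOneSpectrum (𝓞 N)) (s : ℂ) :
    ∏ w : Over F v, (1 - bC ps w.1.asIdeal * (Ideal.absNorm w.1.asIdeal : ℂ) ^ (-s))⁻¹ =
      fac W v s := by
  rw [fac, nrm_eq, loc_N hE v, ← Finset.prod_inv_distrib]
  refine Finset.prod_congr rfl fun w _ => ?_
  have i0 : v.asIdeal.IsMaximal := v.isMaximal
  have i1 : w.1.asIdeal.IsMaximal := w.1.isMaximal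
  have i2 : w.1.asIdeal.LiesOver v.asIdeal := ⟨w.2.symm⟩
  have h1 := Ideal.absNorm_pow_inertiaDeg v.asIdeal w.1.asIdeal
  rw [← h1, Nat.cast_pow, natCast_pow_cpow]

/-- the range `2 < Re s` -/
private theorem Ser_N2 (h : FDat F W' m ps) (hE : EulD W ps) (s : ℂ) (hs : 2 < s.re) :
    W.LSeries s = Lf (bC ps) s := by
  have h1 := (S4.hasProd_Lf (bC ps) (bC_one h) (bC_mul h) (1 / 2) (by norm_num)
    (norm_bC_le h) s (by linarith)).2
  have h2 := S4.hasProd_over (F := N) (F' := F) _ _ h1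
  have he := hasProd_fac W hs
  refine he.unique ?_
  have e : (fun v : HeightOneSpectrum (𝓞 N) => fac W v s) = fun v => ∏ w : Over F v,
      (1 - bC ps w.1.asIdeal * (Ideal.absNorm w.1.asIdeal : ℂ) ^ (-s))⁻¹ :=
    funext fun v => (euler_N' hE v s).symm
  rw [e]
  exact h2

/-- the L-series over a subfield -/
theorem LSeries_N' (h : FDat F W' m ps) (hE : EulD W ps) (s : ℂ) (hs : 3 / 2 < s.re) :
    W.LSeries s = Lf (bC ps) s := by
  have hq := hasSum_coefI_of_le (bC ps) (bC_one h) (bC_mul h) (norm_bC_le h)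
  have h1 := half_plane W (coefI (bC ps)) (fun s hs => (hq s hs).LSeriesSummable)
    (fun s hs => by
      rw [Ser_N2 h hE s hs, (hq s (by linarith)).LSeries_eq]) s hs
  rw [h1.2, (hq s hs).LSeries_eq]

end

end Pool.Agent.Lib.MP_1a91b9_nuX.LG
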